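import Pool.Agent.W2helper90.SM.Stm

/-! PIECE BES of project SM -/

set_option autoImplicit false

open MeasureTheory Set Filter Topology

namespace Pool.Agent.W2helper24.SM

open Pool.Agent.W2helper90.SM

theorem bes : S_BES := by
  intro d N u hu ho r hr ⟨C, hC⟩ ψ hψ ⟨D, hD⟩ ⟨R, hR⟩
  classical
  -- the function F
  set F : (Fin d → ℝ) → ℂ := fun z => (starRingEnd ℂ) (ψ z * (r z : ℂ)) with hF
  have hFm : Measurable F := by
    have h1 : Measurable (fun z => ψ z * (r z : ℂ)) := hψ.mul (Complex.measurable_ofReal.comp hr)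
    exact Complex.continuous_conj.measurable.comp h1
  have hFz : ∀ z, R < ‖z‖ → F z = 0 := by
    intro z hz; simp [hF, hR z hz]
  have hFb : ∀ z, ‖F z‖ ≤ D * C := by
    intro z
    have : ‖F z‖ = ‖ψ z‖ * |r z| := by simp [hF]
    rw [this]
    exact mul_le_mul (hD z) (hC z) (abs_nonneg _) ((norm_nonneg _).trans (hD z))
  have hFL : MemLp F 2 volume := by
    have hind : F = (Metric.closedBall (0 : Fin d → ℝ) R).indicator F := by
      funext z
      by_cases hz : z ∈ Metric.closedBall (0 : Fin d → ℝ) R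
      · rw [indicator_of_mem hz]
      · rw [indicator_of_notMem hz]
        apply hFz
        simpa [Metric.mem_closedBall, dist_zero_right] using hz
    rw [hind, memLp_indicator_iff_restrict Metric.isClosed_closedBall.measurableSet]
    have : IsFiniteMeasure (volume.restrict (Metric.closedBall (0 : Fin d → ℝ) R)) :=
      ⟨by rw [Measure.restrict_apply_univ]; exact (isCompact_closedBall _ _).measure_lt_top⟩
    exact MemLp.of_bound hFm.aestronglyMeasurable (D * C) (ae_of_all _ hFb)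
  have hon : Orthonormal ℂ (fun a => (hu a).toLp (u a)) := by
    rw [orthonormal_iff_ite]
    intro a b
    rw [L2.inner_def]
    rw [← ho a b]
    apply integral_congr_ae
    filter_upwards [(hu a).coeFn_toLp, (hu b).coeFn_toLp] with z h1 h2
    rw [h1, h2]
    simp [mul_comm]
  have key := hon.sum_inner_products_le (hFL.toLp F) (s := Finset.univ)
  have hin : ∀ a, ‖inner ℂ ((hu a).toLp (u a)) (hFL.toLp F)‖ =
      ‖∫ z, ψ z * ((r z : ℂ) * u a z)‖ := by
    intro a
    rw [norm_inner_symm, L2.inner_def]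
    congr 1
    apply integral_congr_ae
    filter_upwards [(hu a).coeFn_toLp, hFL.coeFn_toLp] with z h1 h2
    rw [h1, h2]
    simp [hF]
    ring
  have hsum : ∑ a, ‖∫ z, ψ z * ((r z : ℂ) * u a z)‖ ^ 2 ≤ ‖hFL.toLp F‖ ^ 2 := by
    calc _ = ∑ a, ‖inner ℂ ((hu a).toLp (u a)) (hFL.toLp F)‖ ^ 2 := by
          apply Finset.sum_congr rfl; intro a _; rw [hin a]
      _ ≤ _ := key
  refine (ENNReal.ofReal_le_ofReal hsum).trans ?_
  have hn : ‖hFL.toLp F‖ ^ 2 = ∫ z, ‖F z‖ ^ 2 := by
    have h := @inner_self_eq_norm_sq ℂ (Lp ℂ 2 (volume : Measure (Fin d → ℝ))) _ _ _ (hFL.toLp F)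
    rw [← h, L2.inner_def]
    have h3 : ∫ z, inner ℂ ((hFL.toLp F : Lp ℂ 2 (volume : Measure (Fin d → ℝ))) z) ((hFL.toLp F : Lp ℂ 2 (volume : Measure (Fin d → ℝ))) z) =
        ∫ z, ((‖F z‖ ^ 2 : ℝ) : ℂ) := by
      apply integral_congr_ae
      filter_upwards [hFL.coeFn_toLp] with z h2
      rw [h2]
      rw [inner_self_eq_norm_sq_to_K]
      simp
    rw [h3, integral_complex_ofReal]
    simp
  rw [hn, ofReal_integral_eq_lintegral_ofReal]
  · apply lintegral_mono
    intro z
    show ENNReal.ofReal (‖F z‖ ^ 2) ≤ ENNReal.ofReal (r z ^ 2) * ENNReal.ofReal (‖ψ z‖ ^ 2)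
    rw [← ENNReal.ofReal_mul (sq_nonneg _)]
    apply ENNReal.ofReal_le_ofReal
    have : ‖F z‖ = ‖ψ z‖ * |r z| := by simp [hF]
    rw [this, mul_pow, sq_abs, mul_comm]
  · exact hFL.integrable_norm_pow (by norm_num) |>.congr (by simp)
  · exact ae_of_all _ fun z => by positivity

end Pool.Agent.W2helper24.SM
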