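import Pool.Agent.W2helper90.SM.Stm

/-! PIECE COE of project SM -/

set_option autoImplicit false

open MeasureTheory Set Filter Topology

namespace Pool.Agent.W2helper24.SM

open Pool.Agent.W2helper90.SM
open LTd (pd pp bco WGradC)

namespace COEaux

variable {m n : ℕ}

/-- the partial Fréchet derivative with respect to `x` -/
noncomputable def DD (v : P m n → ℝ) (x : Fin m → ℝ) (y : Fin n → ℝ) : (Fin m → ℝ) →L[ℝ] ℝ :=
  (fderiv ℝ v (x, y)).comp (ContinuousLinearMap.inl ℝ (Fin m → ℝ) (Fin n → ℝ))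

theorem DD_cont {v : P m n → ℝ} (hv : ContDiff ℝ 1 v) :
    Continuous (fun p : P m n => DD v p.1 p.2) := by
  unfold DD
  have h1 : Continuous (fun p : P m n => fderiv ℝ v (p.1, p.2)) :=
    (hv.continuous_fderiv (by norm_num)).comp (by fun_prop)
  exact h1.clm_comp continuous_const

/-- the projection of the support -/
theorem sup_y {v : P m n → ℝ} (hs : HasCompactSupport v) :
    ∃ T : Set (Fin n → ℝ), IsCompact T ∧ ∀ x y, y ∉ T → v (x, y) = 0 ∧ fderiv ℝ v (x, y) = 0 := by
  refine ⟨Prod.snd '' tsupport v, hs.isCompact.image continuous_snd, ?_⟩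
  intro x y hy
  have h1 : (x, y) ∉ tsupport v := fun h => hy ⟨(x, y), h, rfl⟩
  refine ⟨image_eq_zero_of_notMem_tsupport h1, ?_⟩
  have h2 := (notMem_tsupport_iff_eventuallyEq.mp h1).fderiv_eq (𝕜 := ℝ)
  rw [h2]
  simp

theorem sup_x {v : P m n → ℝ} (hs : HasCompactSupport v) :
    ∃ T : Set (Fin m → ℝ), IsCompact T ∧ ∀ x y, x ∉ T → v (x, y) = 0 := by
  refine ⟨Prod.fst '' tsupport v, hs.isCompact.image continuous_fst, ?_⟩
  intro x y hy
  have h1 : (x, y) ∉ tsupport v := fun h => hy ⟨(x, y), h, rfl⟩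
  exact image_eq_zero_of_notMem_tsupport h1

theorem slice_cs {v : P m n → ℝ} (hs : HasCompactSupport v) (x : Fin m → ℝ) :
    HasCompactSupport (fun y => v (x, y)) := by
  obtain ⟨T, hT, h⟩ := sup_y hs
  exact HasCompactSupport.intro hT fun y hy => (h x y hy).1

/-- differentiation under the integral sign -/
theorem hfd {v : P m n → ℝ} (hv : ContDiff ℝ 1 v) (hs : HasCompactSupport v)
    {K : (Fin n → ℝ) → ℝ} (hK : Continuous K) (x₀ : Fin m → ℝ) :
    HasFDerivAt (fun x => ∫ y, K y * v (x, y)) (∫ y, K y • DD v x₀ y) x₀ := by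
  obtain ⟨T, hT, h⟩ := sup_y hs
  have hDs : HasCompactSupport (fun p : P m n => K p.2 • DD v p.1 p.2) := by
    have h1 : HasCompactSupport (fun p : P m n => fderiv ℝ v p) := hs.fderiv ℝ
    apply HasCompactSupport.intro h1.isCompact
    intro p hp
    have h2 : fderiv ℝ v p = 0 := image_eq_zero_of_notMem_tsupport hp
    have h3 : fderiv ℝ v (p.1, p.2) = 0 := h2
    simp [DD, h3]
  have hDc : Continuous (fun p : P m n => K p.2 • DD v p.1 p.2) :=
    (hK.comp continuous_snd).smul (DD_cont hv)
  obtain ⟨C, hC⟩ := hDc.bounded_above_of_compact_support hDs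
  have hvc : ∀ x, Continuous (fun y => K y * v (x, y)) := fun x =>
    hK.mul (hv.continuous.comp (by fun_prop))
  refine hasFDerivAt_integral_of_dominated_of_fderiv_le (s := Set.univ)
    (F' := fun x y => K y • DD v x y) (bound := T.indicator (fun _ => C))
    Filter.univ_mem ?_ ?_ ?_ ?_ ?_ ?_
  · exact Filter.Eventually.of_forall fun x => (hvc x).aestronglyMeasurable
  · exact (hvc x₀).integrable_of_hasCompactSupport ((slice_cs hs x₀).mul_left)
  · have : Continuous (fun y => K y • DD v x₀ y) :=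
      hDc.comp (f := fun y => ((x₀, y) : P m n)) (by fun_prop)
    exact this.aestronglyMeasurable
  · refine ae_of_all _ fun y x _ => ?_
    by_cases hy : y ∈ T
    · rw [indicator_of_mem hy]
      exact hC (x, y)
    · rw [indicator_of_notMem hy]
      simp [DD, (h x y hy).2]
  · rw [integrable_indicator_iff hT.measurableSet]
    exact integrableOn_const (hT.measure_lt_top.ne)
  · refine ae_of_all _ fun y x _ => ?_
    have h1 : HasFDerivAt v (fderiv ℝ v (x, y)) (x, y) :=
      (hv.differentiable (by norm_num) _).hasFDerivAt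
    have h2 : HasFDerivAt (fun x : Fin m → ℝ => ((x, y) : P m n))
        (ContinuousLinearMap.inl ℝ (Fin m → ℝ) (Fin n → ℝ)) x := hasFDerivAt_prodMk_left x y
    have h3 := h1.comp x h2
    exact h3.const_mul (K y)

theorem cd1 {v : P m n → ℝ} (hv : ContDiff ℝ 1 v) (hs : HasCompactSupport v)
    {K : (Fin n → ℝ) → ℝ} (hK : Continuous K) :
    ContDiff ℝ 1 (fun x => ∫ y, K y * v (x, y)) := by
  obtain ⟨T, hT, h⟩ := sup_y hs
  rw [contDiff_one_iff_fderiv]
  refine ⟨fun x => (hfd hv hs hK x).differentiableAt, ?_⟩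
  have e : fderiv ℝ (fun x => ∫ y, K y * v (x, y)) = fun x => ∫ y in T, K y • DD v x y := by
    funext x
    rw [(hfd hv hs hK x).fderiv]
    symm
    apply setIntegral_eq_integral_of_forall_compl_eq_zero
    intro y hy
    simp [DD, (h x y hy).2]
  rw [e]
  have hDc : Continuous (fun p : P m n => K p.2 • DD v p.1 p.2) :=
    (hK.comp continuous_snd).smul (DD_cont hv)
  exact continuous_parametric_integral_of_continuous (f := fun x y => K y • DD v x y) hDc hT

theorem csup {v : P m n → ℝ} (hs : HasCompactSupport v) (K : (Fin n → ℝ) → ℝ) :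
    HasCompactSupport (fun x => ∫ y, K y * v (x, y)) := by
  obtain ⟨T, hT, h⟩ := sup_x hs
  apply HasCompactSupport.intro hT
  intro x hx
  simp [h x _ hx]

theorem pdi {v : P m n → ℝ} (hv : ContDiff ℝ 1 v) (hs : HasCompactSupport v)
    {K : (Fin n → ℝ) → ℝ} (hK : Continuous K) (i : Fin m) (x : Fin m → ℝ) :
    pd i (fun x => ∫ y, K y * v (x, y)) x = ∫ y, K y * gx v i (x, y) := by
  unfold pd
  rw [(hfd hv hs hK x).fderiv]
  have hI : Integrable (fun y => K y • DD v x y) := by
    have hDc : Continuous (fun p : P m n => K p.2 • DD v p.1 p.2) :=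
      (hK.comp continuous_snd).smul (DD_cont hv)
    have hc : Continuous (fun y => K y • DD v x y) :=
      hDc.comp (f := fun y => ((x, y) : P m n)) (by fun_prop)
    obtain ⟨T, hT, h⟩ := sup_y hs
    exact hc.integrable_of_hasCompactSupport (HasCompactSupport.intro hT fun y hy => by
      simp [DD, (h x y hy).2])
  rw [ContinuousLinearMap.integral_apply hI]
  congr 1

theorem dt_cd (ξ : Fin n → ℝ) : ContDiff ℝ 1 (dt ξ) := by
  unfold dt; fun_prop

theorem dt_fd (ξ y : Fin n → ℝ) (j : Fin n) : fderiv ℝ (dt ξ) y (Pi.single j 1) = ξ j := by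
  have h1 : HasFDerivAt (dt ξ)
      (∑ i, (ξ i) • (ContinuousLinearMap.proj i : (Fin n → ℝ) →L[ℝ] ℝ)) y := by
    unfold dt
    apply HasFDerivAt.fun_sum
    intro i _
    exact ((ContinuousLinearMap.proj i : (Fin n → ℝ) →L[ℝ] ℝ).hasFDerivAt).const_mul (ξ i)
  rw [h1.fderiv]
  simp [ContinuousLinearMap.sum_apply, Pi.single_apply]

/-- integration by parts -/
theorem ibp {v : P m n → ℝ} (hv : ContDiff ℝ 1 v) (hs : HasCompactSupport v)
    {K : (Fin n → ℝ) → ℝ} (hK : ContDiff ℝ 1 K) (j : Fin n) (x : Fin m → ℝ) :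
    ∫ y, K y * gy v j (x, y) = - ∫ y, fderiv ℝ K y (Pi.single j 1) * v (x, y) := by
  have hp : ∀ y, HasFDerivAt (fun y : Fin n → ℝ => v (x, y))
      ((fderiv ℝ v (x, y)).comp (ContinuousLinearMap.inr ℝ (Fin m → ℝ) (Fin n → ℝ))) y := by
    intro y
    have h1 : HasFDerivAt v (fderiv ℝ v (x, y)) (x, y) :=
      (hv.differentiable (by norm_num) _).hasFDerivAt
    exact h1.comp y (hasFDerivAt_prodMk_right x y)
  have e : ∀ y, fderiv ℝ (fun y : Fin n → ℝ => v (x, y)) y (Pi.single j 1) = gy v j (x, y) := by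
    intro y
    rw [(hp y).fderiv]
    rfl
  have hsl := slice_cs hs x
  have hslc : ContDiff ℝ 1 (fun y : Fin n → ℝ => v (x, y)) := hv.comp (by fun_prop)
  have key := integral_mul_fderiv_eq_neg_fderiv_mul_of_integrable (μ := volume) (f := K)
    (g := fun y : Fin n → ℝ => v (x, y)) (v := Pi.single j 1) ?_ ?_ ?_ ?_ ?_
  · simp only [e] at key
    exact key
  · have hc : Continuous (fun y => fderiv ℝ K y (Pi.single j 1) * v (x, y)) :=
      ((hK.continuous_fderiv (by norm_num)).clm_apply continuous_const).mul hslc.continuous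
    exact hc.integrable_of_hasCompactSupport hsl.mul_left
  · have hc : Continuous (fun y => K y * fderiv ℝ (fun y : Fin n → ℝ => v (x, y)) y (Pi.single j 1)) :=
      hK.continuous.mul ((hslc.continuous_fderiv (by norm_num)).clm_apply continuous_const)
    have h2 : HasCompactSupport (fun y => fderiv ℝ (fun y : Fin n → ℝ => v (x, y)) y (Pi.single j 1)) :=
      hsl.fderiv_apply ℝ (Pi.single j 1)
    exact hc.integrable_of_hasCompactSupport h2.mul_left
  · exact (hK.continuous.mul hslc.continuous).integrable_of_hasCompactSupport hsl.mul_left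
  · intro y _; exact hK.differentiable (by norm_num) y
  · intro y _; exact hslc.differentiable (by norm_num) y

end COEaux

open COEaux

theorem coe : S_COE := by
  intro m n v hv hs ξ
  have hc : ContDiff ℝ 1 (fun y => Real.cos (dt ξ y)) := (dt_cd ξ).cos
  have hsn : ContDiff ℝ 1 (fun y => Real.sin (dt ξ y)) := (dt_cd ξ).sin
  refine ⟨⟨cd1 hv hs hc.continuous, csup hs _, fun i x => pdi hv hs hc.continuous i x⟩,
    ⟨cd1 hv hs hsn.continuous, csup hs _, fun i x => pdi hv hs hsn.continuous i x⟩, ?_⟩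
  intro j x
  have hd : ∀ y, HasFDerivAt (dt ξ) (fderiv ℝ (dt ξ) y) y := fun y =>
    ((dt_cd ξ).differentiable (by norm_num) y).hasFDerivAt
  constructor
  · unfold FC FS
    rw [ibp hv hs hc j x, ← integral_neg, ← integral_const_mul]
    congr 1; funext y
    rw [(hd y).cos.fderiv, ContinuousLinearMap.smul_apply, dt_fd, smul_eq_mul]
    ring
  · unfold FC FS
    rw [ibp hv hs hsn j x, ← integral_const_mul]
    congr 2; funext y
    rw [(hd y).sin.fderiv, ContinuousLinearMap.smul_apply, dt_fd, smul_eq_mul]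
    ring

end Pool.Agent.W2helper24.SM
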