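import Pool.Agent.W2helper90.SM.Stm
import Mathlib.Analysis.Fourier.AddCircleMulti

/-! PIECE PAR of project SM. The section `Torus` is a copy of `Pool/Agent/H314/DC/R0.lean`. -/

set_option autoImplicit false

open MeasureTheory Set Filter Topology

namespace Pool.Agent.W2helper24.SM

open Pool.Agent.W2helper90.SM

namespace PARaux

section Torus

open Complex

noncomputable local instance re0MS : MeasureSpace UnitAddCircle := ⟨AddCircle.haarAddCircle⟩

variable {d : Type} [Fintype d]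

/-- the map of the torus to the cube -/
noncomputable def sec (t : UnitAddTorus d) : d → ℝ :=
  ((UnitAddTorus.measurableEquivPiIoc (fun _ : d => (-1 / 2 : ℝ)) t).1)

theorem cube_meas : MeasurableSet {x : d → ℝ | ∀ i, x i ∈ Set.Ioc (-1 / 2 : ℝ) (-1 / 2 + 1)} :=
  MeasurableSet.univ_pi' (fun _ => measurableSet_Ioc)

theorem sec_mp : MeasurePreserving (sec (d := d)) volume
    (volume.restrict {x : d → ℝ | ∀ i, x i ∈ Set.Ioc (-1 / 2 : ℝ) (-1 / 2 + 1)}) := by
  have h1 := UnitAddTorus.measurePreserving_equivPiIoc (fun _ : d => (-1 / 2 : ℝ))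
  have h2 := measurePreserving_subtype_coe (μa := (volume : Measure (d → ℝ)))
    (cube_meas (d := d))
  exact h2.comp h1

theorem sec_me : MeasurableEmbedding (sec (d := d)) :=
  (MeasurableEmbedding.subtype_coe (cube_meas (d := d))).comp
    (UnitAddTorus.measurableEquivPiIoc (fun _ : d => (-1 / 2 : ℝ))).measurableEmbedding

theorem coe_sec (t : UnitAddTorus d) : (fun i => ((sec t i : ℝ) : UnitAddCircle)) = t := by
  have h := (UnitAddTorus.measurableEquivPiIoc (fun _ : d => (-1 / 2 : ℝ))).symm_apply_apply t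
  exact h

theorem parseval_cube (F : (d → ℝ) → ℂ) (hF : MemLp F 2 volume)
    (h0 : ∀ x : d → ℝ, (¬ ∀ i, x i ∈ Set.Ioc (-1 / 2 : ℝ) (-1 / 2 + 1)) → F x = 0) :
    HasSum (fun n : d → ℤ => ‖∫ x : d → ℝ,
      Complex.exp (-(2 * Real.pi * I * ∑ i, (n i : ℂ) * (x i : ℂ))) * F x‖ ^ 2)
      (∫ x, ‖F x‖ ^ 2) := by
  have hG : MemLp (fun t : UnitAddTorus d => F (sec t)) 2 volume :=
    (hF.restrict _).comp_measurePreserving sec_mp
  have hsum := UnitAddTorus.hasSum_sq_mFourierCoeff (hG.toLp _)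
  have hcoe := hG.coeFn_toLp
  have h1 : ∫ t, ‖(hG.toLp _ : UnitAddTorus d → ℂ) t‖ ^ 2 = ∫ x, ‖F x‖ ^ 2 := by
    have h2 : ∫ t, ‖(hG.toLp _ : UnitAddTorus d → ℂ) t‖ ^ 2 =
        ∫ t : UnitAddTorus d, ‖F (sec t)‖ ^ 2 := by
      apply integral_congr_ae
      filter_upwards [hcoe] with t ht
      rw [ht]
    rw [h2, sec_mp.integral_comp sec_me (fun x => ‖F x‖ ^ 2)]
    apply setIntegral_eq_integral_of_forall_compl_eq_zero
    intro x hx
    rw [h0 x hx]
    simp
  have h3 : ∀ n : d → ℤ, UnitAddTorus.mFourierCoeff (hG.toLp _ : UnitAddTorus d → ℂ) n =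
      ∫ x : d → ℝ, Complex.exp (-(2 * Real.pi * I * ∑ i, (n i : ℂ) * (x i : ℂ))) * F x := by
    intro n
    have h4 : UnitAddTorus.mFourierCoeff (hG.toLp _ : UnitAddTorus d → ℂ) n =
        ∫ t : UnitAddTorus d, (fun x : d → ℝ =>
          Complex.exp (-(2 * Real.pi * I * ∑ i, (n i : ℂ) * (x i : ℂ))) * F x) (sec t) := by
      unfold UnitAddTorus.mFourierCoeff
      apply integral_congr_ae
      filter_upwards [hcoe] with t ht
      rw [ht, smul_eq_mul]
      congr 1
      conv_lhs => rw [← coe_sec t]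
      change ∏ i : d, fourier ((-n) i) ((sec t i : ℝ) : UnitAddCircle) = _
      simp only [fourier_coe_apply, ← Complex.exp_sum]
      congr 1
      rw [Finset.mul_sum, ← Finset.sum_neg_distrib]
      apply Finset.sum_congr rfl
      intro i _
      simp only [Pi.neg_apply]
      push_cast
      ring
    rw [h4, sec_mp.integral_comp sec_me (fun x : d → ℝ =>
      Complex.exp (-(2 * Real.pi * I * ∑ i, (n i : ℂ) * (x i : ℂ))) * F x)]
    apply setIntegral_eq_integral_of_forall_compl_eq_zero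
    intro x hx
    rw [h0 x hx, mul_zero]
  rw [h1] at hsum
  simpa only [h3] using hsum

end Torus

theorem dt_cont {n : ℕ} (ξ : Fin n → ℝ) : Continuous (dt ξ) := by
  unfold dt; fun_prop

theorem hcs {n : ℕ} {b : ℝ} (hb : 0 < b) {h : (Fin n → ℝ) → ℝ}
    (h0 : ∀ y : Fin n → ℝ, (∃ j, b / 2 ≤ |y j|) → h y = 0) : HasCompactSupport h := by
  apply HasCompactSupport.intro (isCompact_closedBall (0 : Fin n → ℝ) (b / 2))
  intro y hy
  apply h0
  by_contra hcon
  push Not at hcon
  apply hy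
  rw [Metric.mem_closedBall, dist_zero_right, pi_norm_le_iff_of_nonneg (by positivity)]
  intro i
  rw [Real.norm_eq_abs]
  exact (hcon i).le

theorem normsq_exp {n : ℕ} (ξ : Fin n → ℝ) {h : (Fin n → ℝ) → ℝ} (hc : Continuous h)
    (hs : HasCompactSupport h) :
    ‖∫ y, Complex.exp (-((dt ξ y : ℝ) * Complex.I)) * ((h y : ℝ) : ℂ)‖ ^ 2 =
      FC ξ h ^ 2 + FS ξ h ^ 2 := by
  have hI : Integrable (fun y => Complex.exp (-((dt ξ y : ℝ) * Complex.I)) * ((h y : ℝ) : ℂ)) := by
    apply Continuous.integrable_of_hasCompactSupport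
    · have := dt_cont ξ
      fun_prop
    · exact (hs.comp_left (g := fun t : ℝ => (t : ℂ)) (by simp)).mul_left
  have e1 : ∀ y, Complex.exp (-((dt ξ y : ℝ) * Complex.I)) =
      ((Real.cos (dt ξ y) : ℝ) : ℂ) - ((Real.sin (dt ξ y) : ℝ) : ℂ) * Complex.I := by
    intro y
    rw [← neg_mul, Complex.exp_mul_I, Complex.cos_neg, Complex.sin_neg]
    push_cast
    ring
  rw [← Complex.normSq_eq_norm_sq, Complex.normSq_apply]
  have hre : (∫ y, Complex.exp (-((dt ξ y : ℝ) * Complex.I)) * ((h y : ℝ) : ℂ)).re = FC ξ h := by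
    rw [← Complex.reCLM_apply, ← Complex.reCLM.integral_comp_comm hI]
    unfold FC
    congr 1; funext y
    rw [e1 y, Complex.reCLM_apply, Complex.re_mul_ofReal, Complex.sub_re, Complex.re_ofReal_mul,
      Complex.ofReal_re, Complex.I_re, mul_zero, sub_zero]
  have him : (∫ y, Complex.exp (-((dt ξ y : ℝ) * Complex.I)) * ((h y : ℝ) : ℂ)).im = -FS ξ h := by
    rw [← Complex.imCLM_apply, ← Complex.imCLM.integral_comp_comm hI]
    unfold FS
    rw [← integral_neg]
    congr 1; funext y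
    rw [e1 y, Complex.imCLM_apply, Complex.im_mul_ofReal, Complex.sub_im, Complex.im_ofReal_mul,
      Complex.ofReal_im, Complex.I_im, mul_one, zero_sub, neg_mul]
  rw [hre, him]
  ring

end PARaux

open PARaux

theorem par : S_PAR := by
  intro n b hb h hc h0
  have hs := hcs hb h0
  have hbn : 0 < b ^ n := by positivity
  set F : (Fin n → ℝ) → ℂ := fun x => ((h (b • x) : ℝ) : ℂ) with hF
  have hFc : Continuous F := by fun_prop
  have hF0 : ∀ x : Fin n → ℝ, (¬ ∀ i, x i ∈ Set.Ioc (-1 / 2 : ℝ) (-1 / 2 + 1)) → F x = 0 := by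
    intro x hx
    push Not at hx
    obtain ⟨i, hi⟩ := hx
    have : h (b • x) = 0 := by
      apply h0
      refine ⟨i, ?_⟩
      have h1 : 1 / 2 ≤ |x i| := by
        by_contra hcon
        push Not at hcon
        rw [abs_lt] at hcon
        apply hi
        constructor <;> linarith [hcon.1, hcon.2]
      rw [Pi.smul_apply, smul_eq_mul, abs_mul, abs_of_pos hb]
      nlinarith
    simp [hF, this]
  have hFs : HasCompactSupport F := by
    apply HasCompactSupport.intro (isCompact_closedBall (0 : Fin n → ℝ) 1)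
    intro x hx
    apply hF0
    intro hcon
    apply hx
    rw [Metric.mem_closedBall, dist_zero_right, pi_norm_le_iff_of_nonneg (by positivity)]
    intro i
    have := hcon i
    rw [Real.norm_eq_abs, abs_le]
    constructor <;> linarith [this.1, this.2]
  have hFL : MemLp F 2 volume := hFc.memLp_of_hasCompactSupport hFs
  have key := parseval_cube F hFL hF0
  have hfin : Module.finrank ℝ (Fin n → ℝ) = n := by simp
  have hco : ∀ k : Fin n → ℤ, ‖∫ x : Fin n → ℝ,
      Complex.exp (-(2 * Real.pi * Complex.I * ∑ i, (k i : ℂ) * (x i : ℂ))) * F x‖ ^ 2 =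
      ((b ^ n)⁻¹) ^ 2 * (FC (fq b k) h ^ 2 + FS (fq b k) h ^ 2) := by
    intro k
    have e : (fun x : Fin n → ℝ => Complex.exp (-(2 * Real.pi * Complex.I * ∑ i, (k i : ℂ) * (x i : ℂ))) * F x) =
        fun x => (fun y => Complex.exp (-((dt (fq b k) y : ℝ) * Complex.I)) * ((h y : ℝ) : ℂ)) (b • x) := by
      funext x
      simp only [hF]
      congr 2
      unfold dt fq
      push_cast
      rw [Finset.mul_sum, Finset.sum_mul]
      congr 1
      apply Finset.sum_congr rfl
      intro i _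
      have hb' : (b : ℂ) ≠ 0 := by exact_mod_cast hb.ne'
      simp only [Pi.smul_apply, smul_eq_mul]
      push_cast
      field_simp
    rw [e, Measure.integral_comp_smul volume
      (fun y => Complex.exp (-((dt (fq b k) y : ℝ) * Complex.I)) * ((h y : ℝ) : ℂ)) b,
      norm_smul, mul_pow, normsq_exp (fq b k) hc hs, hfin]
    congr 1
    rw [Real.norm_eq_abs, abs_abs, sq_abs]
  have htot : ∫ x, ‖F x‖ ^ 2 = (b ^ n)⁻¹ * ∫ y, h y ^ 2 := by
    have e : (fun x => ‖F x‖ ^ 2) = fun x => (fun y => h y ^ 2) (b • x) := by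
      funext x
      simp [hF]
    rw [e, Measure.integral_comp_smul volume (fun y => h y ^ 2) b, hfin, smul_eq_mul,
      abs_of_pos (by positivity)]
  rw [htot] at key
  simp only [hco] at key
  have key2 := key.mul_left ((b ^ n) ^ 2)
  have e3 : (b ^ n) ^ 2 * ((b ^ n)⁻¹ * ∫ y, h y ^ 2) = b ^ n * ∫ y, h y ^ 2 := by
    field_simp
  rw [e3] at key2
  have e4 : (fun k : Fin n → ℤ => (b ^ n) ^ 2 * ((b ^ n)⁻¹ ^ 2 * (FC (fq b k) h ^ 2 + FS (fq b k) h ^ 2))) =
      fun k => FC (fq b k) h ^ 2 + FS (fq b k) h ^ 2 := by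
    funext k
    field_simp
  rw [e4] at key2
  exact key2

end Pool.Agent.W2helper24.SM
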